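import Pool.Agent.Run7.h252.KL
import Pool.Agent.Y235.JC.P6

/-!
# The trapezoid conjecture and weighted complete intersections

Let `F, G` be a pair of polynomials as in the trapezoid conjecture (conditions 1, 4 and 5). Let `L` and
`H` be any polynomial maps of the plane with nonzero constant Jacobian determinants and let
`W = L ∘ (F, G) ∘ H`. Suppose that rational functions `z₁, …, z_r` of `x, y` satisfy `r` equations
`Φ_i(W₁; W₂, z) = 0`, where `Φ_i ∈ ℂ[U][V, Z₁, …, Z_r]` has weighted degree `d_i` (for some positive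
weights of `V, Z_j`) and top form `c_i(U) Φ⁰_i` with `Φ⁰_i ∈ ℂ[V, Z]`, the curve `Φ = 0` over `ℂ(U)` is
smooth, and its points at infinity (the zeros of `Φ⁰`) lie outside `V = 0` and are transversal to
`V = const`. If `ℂ(x, y) = ℂ(W₁, W₂, z)`, or if some `z_j` is not in `ℂ(W₁, W₂)`, then `[F, G] = 0`.

The theorem on plane Keller maps from which this is deduced is in the starting library
(`Pool.Agent.Y235.JC`, not handed in before). New here are the composites and the trapezoidal pairs
(`Run7.h252.KL`). The curves here may have any genus; `RationalSubfields` is the case of rational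
curves, without conditions at infinity.
-/

set_option autoImplicit false

open MvPolynomial

namespace Pool.Agent.Results.MP_2d59ee_ag.CompleteIntersections

/-- Polynomials in two variables with complex coefficients. -/
abbrev P2 : Type := MvPolynomial (Fin 2) ℂ

/-- Rational functions in two variables with complex coefficients. -/
abbrev K2 : Type := FractionRing P2

/-- The polynomial map `p ∘ q` of the plane (first `q`, then `p`). -/
noncomputable def comp (p q : Fin 2 → P2) : Fin 2 → P2 := fun i => aeval q (p i)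

/-- The Jacobian determinant of the polynomial map `p` is a nonzero constant. -/
def Keller (p : Fin 2 → P2) : Prop :=
  ∃ c : ℂ, c ≠ 0 ∧ pderiv 0 (p 0) * pderiv 1 (p 1) - pderiv 1 (p 0) * pderiv 0 (p 1) = C c

/-- A family of weighted complete intersections: `r` equations `Φ_i` over `ℂ[U]` in the coordinates
`V = X none` and `Z_j = X (some j)`. -/
structure Curve (r : ℕ) where
  /-- the weights of the coordinates -/
  w : Option (Fin r) → ℕ
  w_pos : ∀ o, 0 < w o
  /-- the weighted degrees of the equations -/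
  d : Fin r → ℕ
  /-- the equations -/
  Φ : Fin r → MvPolynomial (Option (Fin r)) (Polynomial ℂ)
  /-- their top forms, up to factors in `ℂ[U]` -/
  top : Fin r → MvPolynomial (Option (Fin r)) ℂ
  /-- these factors -/
  c : Fin r → Polynomial ℂ
  c_ne : ∀ i, c i ≠ 0
  homogeneous : ∀ i, IsWeightedHomogeneous w (top i) (d i)
  /-- `Φ_i` minus its top form `c_i(U) Φ⁰_i` has weighted degree less than `d_i` -/
  lower : ∀ i, ∀ e ∈ (Φ i - C (c i) * map Polynomial.C (top i)).support, Finsupp.weight w e < d i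
  /-- the top forms and `V` have no common zero outside the origin -/
  at_infinity : ∀ j, ∃ n : ℕ, (X (some j) : MvPolynomial (Option (Fin r)) ℂ) ^ n ∈
      Ideal.span (Set.range (fun o : Option (Fin r) => o.elim (X none) top))
  /-- the top forms and the determinant of their derivatives by the `Z_j` have no common zero with
  `V ≠ 0` -/
  transversal : ∃ n : ℕ, (X none : MvPolynomial (Option (Fin r)) ℂ) ^ n ∈
      Ideal.span (Set.range (fun o : Option (Fin r) =>
        o.elim (Matrix.det (Matrix.of fun i j => pderiv (some j) (top i))) top))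
  /-- the Jacobian criterion: the curve over `ℂ(U)` is smooth -/
  smooth : ∃ s : Polynomial ℂ, s ≠ 0 ∧ (C s : MvPolynomial (Option (Fin r)) (Polynomial ℂ)) ∈
      Ideal.span (Set.range Φ ∪ Set.range fun e : Fin r → Option (Fin r) =>
        Matrix.det (Matrix.of fun i j => pderiv (e j) (Φ i)))

/-- The value of `p ∈ ℂ[U][V, Z]` at `U = u`, `V = v`, `Z = z`. -/
noncomputable def value {r : ℕ} (u v : P2) (z : Fin r → K2)
    (p : MvPolynomial (Option (Fin r)) (Polynomial ℂ)) : K2 :=
  eval₂ ((algebraMap P2 K2).comp (Polynomial.eval₂RingHom C u))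
    (fun o => o.elim (algebraMap P2 K2 v) z) p

/-- Let `a, b ≥ 2` be coprime, let `a` divide `m, n > 0` and let `F, G` be complex polynomials whose
Newton polygons are the trapezoids `T_{m,n}` and `T_{bm/a,bn/a}` and whose bracket is constant. Let
`L` and `H` be polynomial maps of the plane whose Jacobian determinants are nonzero constants and
`W = L ∘ (F, G) ∘ H`. Let `D` be a family of weighted complete intersections over `ℂ[U]` as above and let
`z₁, …, z_r` be rational functions of `x, y` with `Φ_i(W₁; W₂, z) = 0` for all `i`. If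
`ℂ(W₁, W₂, z) = ℂ(x, y)` or some `z_j` is not in `ℂ(W₁, W₂)` then `[F, G] = 0`. -/
theorem result (a b m n : ℕ) (hm : 0 < m) (hn : 0 < n) (ham : a ∣ m) (han : a ∣ n)
    (hab : Nat.gcd a b = 1) (ha : 2 ≤ a) (hb : 2 ≤ b)
    (F G : MvPolynomial (Fin 2) ℂ)
    (h1 : convexHull ℝ (insert ((0:ℝ), (0:ℝ))
        ((fun d : Fin 2 →₀ ℕ => ((d 0 : ℝ), (d 1 : ℝ))) '' (↑F.support : Set (Fin 2 →₀ ℕ))))
        = {p : ℝ × ℝ | 0 ≤ p.2 ∧ p.2 ≤ (n : ℝ) ∧ 0 ≤ p.1 ∧ p.1 ≤ (m : ℝ) + (n : ℝ) - p.2})
    (h4 : convexHull ℝ (insert ((0:ℝ), (0:ℝ))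
        ((fun d : Fin 2 →₀ ℕ => ((d 0 : ℝ), (d 1 : ℝ))) '' (↑G.support : Set (Fin 2 →₀ ℕ))))
        = {p : ℝ × ℝ | 0 ≤ p.2 ∧ p.2 ≤ ((b * n / a : ℕ) : ℝ) ∧ 0 ≤ p.1 ∧
            p.1 ≤ ((b * m / a : ℕ) : ℝ) + ((b * n / a : ℕ) : ℝ) - p.2})
    (h5 : ∃ c : ℂ, pderiv 0 F * pderiv 1 G - pderiv 1 F * pderiv 0 G = C c)
    (L H : Fin 2 → P2) (hL : Keller L) (hH : Keller H)
    (W : Fin 2 → P2) (hW : W = comp L (comp ![F, G] H))
    {r : ℕ} (D : Curve r) (z : Fin r → K2) (hz : ∀ i, value (W 0) (W 1) z (D.Φ i) = 0)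
    (hne : IntermediateField.adjoin ℂ
        (Set.range (fun j => algebraMap P2 K2 (W j)) ∪ Set.range z) = ⊤ ∨
      ∃ j, z j ∉ IntermediateField.adjoin ℂ (Set.range fun j => algebraMap P2 K2 (W j))) :
    pderiv 0 F * pderiv 1 G - pderiv 1 F * pderiv 0 G = 0 := by
  obtain ⟨c, hc⟩ := h5
  by_cases hc0 : c = 0
  · rw [hc, hc0, map_zero]
  exfalso
  subst hW
  obtain ⟨hWK, hno⟩ := Run7.h252.KL.tz a b m n hm hn ham han hab ha hb F G h1 h4 hc0 hc L H hL hH
  let D' : Pool.Agent.Y235.JC.CI ℂ r :=
    { w := D.w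
      hw := D.w_pos
      d := D.d
      Φ := D.Φ
      Φ0 := D.top
      c := D.c
      hc := D.c_ne
      hΦ0 := D.homogeneous
      htop := fun i e he => by
        have := D.lower i e he
        omega
      h2 := D.at_infinity
      h3 := D.transversal
      h4 := D.smooth }
  obtain ⟨e1, e2⟩ := Pool.Agent.Y235.JC.CI_field (Run7.h252.KL.comp L (Run7.h252.KL.comp ![F, G] H))
    hWK.unit D' z hz
  rcases hne with h | ⟨j, h⟩
  · obtain ⟨G', hG', -⟩ := e2 h
    exact hno ⟨G', hG'⟩
  · exact h (e1 j)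

end Pool.Agent.Results.MP_2d59ee_ag.CompleteIntersections
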