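import Pool.Agent.Run7.h252.KL
import Pool.Agent.TH207.Desc

/-!
# The trapezoid conjecture and polynomials with few monomials or few weights

Let `F, G` be a pair of polynomials as in the trapezoid conjecture (conditions 1, 4 and 5). Let `L` and
`H` be any polynomial maps of the plane with nonzero constant Jacobian determinants (for instance
automorphisms) and let `W = L ∘ (F, G) ∘ H`. If the component `W₁` has at most seven monomials besides
the constant, or for some weights of the variables at most four weighted homogeneous parts besides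
those of weight `0` and of the smaller of the weights of the variables, then `[F, G] = 0`.

For instance, if `[F, G] ≠ 0` then in the coordinates of the reduction of the Jacobian conjecture to the
trapezoid conjecture the polynomial `F(x - 1, y + 1 - x)` has at least five homogeneous parts of degree
at least two, at least five positive exponents of `x`, at least five positive exponents of `y`, and at
least eight monomials besides the constant; and so has every other polynomial `p(F, G)`, `p` a component
of a Keller map, in all polynomial coordinates.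

The theorems on plane Keller maps from which this is deduced are in the starting library
(`Pool.Agent.TH207`, `Pool.Agent.W443`, not handed in before). New here are the composites and the
trapezoidal pairs (`Run7.h252.KL`).
-/

set_option autoImplicit false

open MvPolynomial

namespace Pool.Agent.Results.MP_2d59ee_ag.FewPieces

/-- Polynomials in two variables with complex coefficients. -/
abbrev P2 : Type := MvPolynomial (Fin 2) ℂ

/-- The polynomial map `p ∘ q` of the plane (first `q`, then `p`). -/
noncomputable def comp (p q : Fin 2 → P2) : Fin 2 → P2 := fun i => aeval q (p i)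

/-- The Jacobian determinant of the polynomial map `p` is a nonzero constant. -/
def Keller (p : Fin 2 → P2) : Prop :=
  ∃ c : ℂ, c ≠ 0 ∧ pderiv 0 (p 0) * pderiv 1 (p 1) - pderiv 1 (p 0) * pderiv 0 (p 1) = C c

/-- The weights `u i + v j` of the monomials `x ^ i y ^ j` of `f`, without `0` and `min u v`. -/
noncomputable def weights (u v : ℕ) (f : P2) : Finset ℕ :=
  (f.support.image fun s => u * s 0 + v * s 1) \ {0, min u v}

/-- Let `a, b ≥ 2` be coprime, let `a` divide `m, n > 0` and let `F, G` be complex polynomials whose
Newton polygons are the trapezoids `T_{m,n}` and `T_{bm/a,bn/a}` and whose bracket is constant. Let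
`L` and `H` be polynomial maps of the plane whose Jacobian determinants are nonzero constants and
`W = L ∘ (F, G) ∘ H`. If `W₁` has at most seven monomials different from the constant, or if for some
weights `u`, `v` of the variables, not both zero, it has at most four weights different from `0` and
`min u v`, then `[F, G] = 0`. -/
theorem result (a b m n : ℕ) (hm : 0 < m) (hn : 0 < n) (ham : a ∣ m) (han : a ∣ n)
    (hab : Nat.gcd a b = 1) (ha : 2 ≤ a) (hb : 2 ≤ b)
    (F G : MvPolynomial (Fin 2) ℂ)
    (h1 : convexHull ℝ (insert ((0:ℝ), (0:ℝ))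
        ((fun d : Fin 2 →₀ ℕ => ((d 0 : ℝ), (d 1 : ℝ))) '' (↑F.support : Set (Fin 2 →₀ ℕ))))
        = {p : ℝ × ℝ | 0 ≤ p.2 ∧ p.2 ≤ (n : ℝ) ∧ 0 ≤ p.1 ∧ p.1 ≤ (m : ℝ) + (n : ℝ) - p.2})
    (h4 : convexHull ℝ (insert ((0:ℝ), (0:ℝ))
        ((fun d : Fin 2 →₀ ℕ => ((d 0 : ℝ), (d 1 : ℝ))) '' (↑G.support : Set (Fin 2 →₀ ℕ))))
        = {p : ℝ × ℝ | 0 ≤ p.2 ∧ p.2 ≤ ((b * n / a : ℕ) : ℝ) ∧ 0 ≤ p.1 ∧
            p.1 ≤ ((b * m / a : ℕ) : ℝ) + ((b * n / a : ℕ) : ℝ) - p.2})
    (h5 : ∃ c : ℂ, pderiv 0 F * pderiv 1 G - pderiv 1 F * pderiv 0 G = C c)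
    (L H : Fin 2 → P2) (hL : Keller L) (hH : Keller H)
    (W : Fin 2 → P2) (hW : W = comp L (comp ![F, G] H))
    (hfew : ((W 0).support.erase 0).card ≤ 7 ∨
      ∃ u v : ℕ, (1 ≤ u ∨ 1 ≤ v) ∧ (weights u v (W 0)).card ≤ 4) :
    pderiv 0 F * pderiv 1 G - pderiv 1 F * pderiv 0 G = 0 := by
  obtain ⟨c, hc⟩ := h5
  by_cases hc0 : c = 0
  · rw [hc, hc0, map_zero]
  exfalso
  subst hW
  obtain ⟨hWK, hno⟩ := Run7.h252.KL.tz a b m n hm hn ham han hab ha hb F G h1 h4 hc0 hc L H hL hH
  have hbad : Pool.Agent.W443.J6.Bad (comp L (comp ![F, G] H) 0) (comp L (comp ![F, G] H) 1) := by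
    refine ⟨hWK, fun hg => hno ?_⟩
    have hr : (![comp L (comp ![F, G] H) 0, comp L (comp ![F, G] H) 1] : Fin 2 → P2) =
        comp L (comp ![F, G] H) := by
      funext i
      fin_cases i <;> rfl
    have h2 : ∀ i, ∃ g : P2, aeval (comp L (comp ![F, G] H)) g = X i := by
      intro i
      have h3 : (X i : P2) ∈ Algebra.adjoin ℂ
          {comp L (comp ![F, G] H) 0, comp L (comp ![F, G] H) 1} := by
        rw [show Algebra.adjoin ℂ {comp L (comp ![F, G] H) 0, comp L (comp ![F, G] H) 1} = ⊤ from hg]
        trivial
      have h4 : ({comp L (comp ![F, G] H) 0, comp L (comp ![F, G] H) 1} : Set P2) =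
          Set.range (comp L (comp ![F, G] H)) := by
        ext x
        simp only [Set.mem_insert_iff, Set.mem_singleton_iff, Set.mem_range, Fin.exists_fin_two]
        rw [eq_comm (a := x), eq_comm (a := x)]
      rw [h4, Algebra.adjoin_range_eq_range_aeval] at h3
      exact h3
    choose g hg' using h2
    exact ⟨g, hg'⟩
  rcases hfew with h | ⟨u, v, huv, h⟩
  · have := Pool.Agent.TH207.eight hbad
    omega
  · have h6 := Pool.Agent.TH207.count' hbad huv
    have h7 : Pool.Agent.TH207.Wts u v (comp L (comp ![F, G] H) 0) \ {0, min u v} =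
        weights u v (comp L (comp ![F, G] H) 0) := rfl
    rw [h7] at h6
    omega

end Pool.Agent.Results.MP_2d59ee_ag.FewPieces
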