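import Pool.Agent.Run7.h252.KL
import Pool.Agent.Y235.JC.M3

/-!
# The trapezoid conjecture and rational intermediate fields

Let `F, G` be a pair of polynomials as in the trapezoid conjecture (conditions 1, 4 and 5). Let `L` and
`H` be any polynomial maps of the plane with nonzero constant Jacobian determinants (for instance
automorphisms, or words in the map `(F, G)` itself and other such maps) and let `W = L ∘ (F, G) ∘ H`. If
some intermediate field `M` of `ℂ(x, y) / ℂ(W₁, W₂)` is rational over `ℂ(W₁)`, that is `M = ℂ(W₁, T)` for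
some rational function `T`, and `M = ℂ(x, y)` or `M ≠ ℂ(W₁, W₂)`, then `[F, G] = 0`.

The case `M = ℂ(x, y)`: if one component `W₁` of one of these composites, for instance `F`, `G`, `F + G²`
or a change of coordinates of them, is a rational polynomial (a field generator, the generic fibre of
`W₁` is a rational curve; its fibres may be reducible) then `[F, G] = 0`. Known before: Keller maps with
a rational component all of whose fibres are irreducible (Razar, Heitmann, Neumann and Norbury), with
a rational component of simple type (Lê and Weber), with two rational components (Nguyen Van Chau).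

The theorem on plane Keller maps from which this is deduced is in the starting library
(`Pool.Agent.Y235.JC`, `Pool.Agent.H922R2`, not handed in before). New here are the composites and the
trapezoidal pairs (`Run7.h252.KL`). The starting file `EllipticTrapezoid` is the case of genus one,
which needs further conditions.
-/

set_option autoImplicit false

open MvPolynomial

namespace Pool.Agent.Results.MP_2d59ee_ag.RationalSubfields

/-- Polynomials in two variables with complex coefficients. -/
abbrev P2 : Type := MvPolynomial (Fin 2) ℂ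

/-- Rational functions in two variables with complex coefficients. -/
abbrev K2 : Type := FractionRing P2

/-- The polynomial map `p ∘ q` of the plane (first `q`, then `p`). -/
noncomputable def comp (p q : Fin 2 → P2) : Fin 2 → P2 := fun i => aeval q (p i)

/-- The Jacobian determinant of the polynomial map `p` is a nonzero constant. -/
def Keller (p : Fin 2 → P2) : Prop :=
  ∃ c : ℂ, c ≠ 0 ∧ pderiv 0 (p 0) * pderiv 1 (p 1) - pderiv 1 (p 0) * pderiv 0 (p 1) = C c

/-- Let `a, b ≥ 2` be coprime, let `a` divide `m, n > 0` and let `F, G` be complex polynomials whose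
Newton polygons are the trapezoids `T_{m,n}` and `T_{bm/a,bn/a}` and whose bracket is constant. Let
`L` and `H` be polynomial maps of the plane whose Jacobian determinants are nonzero constants and
`W = L ∘ (F, G) ∘ H`. Let `M` be a field between `ℂ(W₁, W₂)` and `ℂ(x, y)` with `M = ℂ(W₁, T)` for some
rational function `T`. If `M = ℂ(x, y)` or `M ≠ ℂ(W₁, W₂)` then `[F, G] = 0`. -/
theorem result (a b m n : ℕ) (hm : 0 < m) (hn : 0 < n) (ham : a ∣ m) (han : a ∣ n)
    (hab : Nat.gcd a b = 1) (ha : 2 ≤ a) (hb : 2 ≤ b)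
    (F G : MvPolynomial (Fin 2) ℂ)
    (h1 : convexHull ℝ (insert ((0:ℝ), (0:ℝ))
        ((fun d : Fin 2 →₀ ℕ => ((d 0 : ℝ), (d 1 : ℝ))) '' (↑F.support : Set (Fin 2 →₀ ℕ))))
        = {p : ℝ × ℝ | 0 ≤ p.2 ∧ p.2 ≤ (n : ℝ) ∧ 0 ≤ p.1 ∧ p.1 ≤ (m : ℝ) + (n : ℝ) - p.2})
    (h4 : convexHull ℝ (insert ((0:ℝ), (0:ℝ))
        ((fun d : Fin 2 →₀ ℕ => ((d 0 : ℝ), (d 1 : ℝ))) '' (↑G.support : Set (Fin 2 →₀ ℕ))))
        = {p : ℝ × ℝ | 0 ≤ p.2 ∧ p.2 ≤ ((b * n / a : ℕ) : ℝ) ∧ 0 ≤ p.1 ∧
            p.1 ≤ ((b * m / a : ℕ) : ℝ) + ((b * n / a : ℕ) : ℝ) - p.2})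
    (h5 : ∃ c : ℂ, pderiv 0 F * pderiv 1 G - pderiv 1 F * pderiv 0 G = C c)
    (L H : Fin 2 → P2) (hL : Keller L) (hH : Keller H)
    (W : Fin 2 → P2) (hW : W = comp L (comp ![F, G] H))
    (M : IntermediateField ℂ K2) (hM : ∀ j, algebraMap P2 K2 (W j) ∈ M)
    (T : K2) (hT : M = IntermediateField.adjoin ℂ {algebraMap P2 K2 (W 0), T})
    (hne : M = ⊤ ∨ M ≠ IntermediateField.adjoin ℂ {algebraMap P2 K2 (W 0), algebraMap P2 K2 (W 1)}) :
    pderiv 0 F * pderiv 1 G - pderiv 1 F * pderiv 0 G = 0 := by
  obtain ⟨c, hc⟩ := h5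
  by_cases hc0 : c = 0
  · rw [hc, hc0, map_zero]
  exfalso
  subst hW
  obtain ⟨hWK, hno⟩ := Run7.h252.KL.tz a b m n hm hn ham han hab ha hb F G h1 h4 hc0 hc L H hL hH
  have hT' : M = IntermediateField.adjoin ℂ {algebraMap P2 K2
      (aeval (Run7.h252.KL.comp L (Run7.h252.KL.comp ![F, G] H))
        ((AlgEquiv.refl : P2 ≃ₐ[ℂ] P2) (X 0))), T} := by
    rw [hT, AlgEquiv.coe_refl, id_eq, aeval_X]
    rfl
  obtain ⟨e1, e2⟩ := Pool.Agent.Y235.JC.RM_field (Run7.h252.KL.comp L (Run7.h252.KL.comp ![F, G] H))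
    hWK.unit AlgEquiv.refl M hM T hT'
  rcases hne with h | h
  · obtain ⟨G', hG', -⟩ := e2 h
    exact hno ⟨G', hG'⟩
  · apply h
    rw [e1]
    congr 1
    exact Pool.Agent.Y235.JC.range_two _

end Pool.Agent.Results.MP_2d59ee_ag.RationalSubfields
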